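import Pool.Agent.H13.EDM.Targets
import Pool.Agent.H52.TD.PBK
import Pool.Agent.H8.TD.Basic

/-! Row PBM of `edm_modules`: pullback of mixed degrees. -/

set_option autoImplicit false

open MvPolynomial
open Pool.Agent.H12.ZD (pmap)
open Pool.Agent.H18.HIT
open Pool.Agent.H8.ZA (HFam Const NA)
open Pool.Agent.H8.TD (lc dg Wsp)
open Pool.Agent.H8.TX (hn)
open Pool.Agent.H13.EDM

namespace Pool.Agent.H79.EDM

theorem pf_PBM (hIFD : T_IFD) (hMDM : T_MDM) : T_PBM := by
  intro n a m k K _ _ _ _ τ φ htr hfg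
  have hinf : Infinite k := Infinite.of_injective (Nat.cast : ℕ → k) Nat.cast_injective
  constructor
  · obtain ⟨ι, x, hx⟩ := exists_isTranscendenceBasis' k K
    have hι : Cardinal.mk ι = n := by rw [hx.cardinalMk_eq_trdeg, htr]
    obtain ⟨e⟩ : Nonempty (Fin n ≃ ι) := by
      rw [← Cardinal.eq, Cardinal.mk_fin, hι]
    have h1 : AlgebraicIndependent k (x ∘ e) := hx.1.comp e e.injective
    have h2 : AlgebraicIndependent k (τ ∘ (x ∘ e)) := h1.map' τ.injective
    have h3 := (hIFD n k K (τ ∘ (x ∘ e)) htr hfg).2 h2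
    rw [Set.range_comp τ, Pool.Agent.H52.TD.dg_image] at h3
    rcases Nat.eq_zero_or_pos (Module.finrank τ.fieldRange K) with h | h
    · rw [h, zero_mul] at h3
      omega
    · exact h
  · have key : ∀ s : Fin n → Fin a → k,
        dg k (Set.range fun i => lc (s i) (fun l => τ^[m] (φ i l))) =
          Module.finrank τ.fieldRange K ^ m * dg k (Set.range fun i => lc (s i) (φ i)) := by
      intro s
      rw [← Pool.Agent.H52.TD.pf_PBK k K τ m, ← Set.range_comp]
      congr 2
      funext i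
      exact (Pool.Agent.H8.TD.lc_iterate τ (s i) (φ i) m).symm
    obtain ⟨h1, s₁, h2⟩ := hMDM n a k K φ htr hfg
    obtain ⟨h3, s₂, h4⟩ := hMDM n a k K (fun i l => τ^[m] (φ i l)) htr hfg
    refine le_antisymm ?_ ?_
    · rw [← h4, key]
      exact Nat.mul_le_mul_left _ (h1 s₂)
    · rw [← h2, ← key]
      exact h3 s₁

end Pool.Agent.H79.EDM
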